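import Mathlib

set_option autoImplicit false

namespace Pool.Agent.Results.MP_633bfc_co.Complement

open Finset MvPolynomial

universe u v

section Defs

variable {V : Type u} [Fintype V]

open Classical in
/-- `boundary G W` is the set of edges of `G` with exactly one endpoint in `W`. -/
noncomputable def boundary (G : SimpleGraph V) (W : Finset V) : Finset (Sym2 V) :=
  G.edgeFinset.filter (fun e => ∃ a b : V, e = s(a, b) ∧ a ∈ W ∧ b ∉ W)

open Classical in
/-- For a set `F` of edges, `joined F W` is the set of vertices outside `W` that are joined to a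
vertex of `W` by an edge of `F`. -/
noncomputable def joined (F : Finset (Sym2 V)) (W : Finset V) : Finset V :=
  Finset.univ.filter (fun b => b ∉ W ∧ ∃ a ∈ W, s(a, b) ∈ F)

/-- The bipartition polynomial of `G`, with `x = X 0`, `y = X 1`, `z = X 2`. -/
noncomputable def bipartitionPolynomial (G : SimpleGraph V) : MvPolynomial (Fin 3) ℤ :=
  ∑ W : Finset V, X 0 ^ W.card *
    ∑ F ∈ (boundary G W).powerset, X 1 ^ (joined F W).card * X 2 ^ F.card

end Defs

section Proof

variable {V : Type u} [Fintype V]

open Classical in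
/-- The edges between `W` and `S`. -/
noncomputable def cut (G : SimpleGraph V) (W S : Finset V) : Finset (Sym2 V) :=
  G.edgeFinset.filter (fun e => ∃ a b : V, e = s(a, b) ∧ a ∈ W ∧ b ∈ S)

lemma subset_cut_iff (G : SimpleGraph V) (W S : Finset V) (hWS : Disjoint W S)
    (F : Finset (Sym2 V)) :
    F ⊆ cut G W S ↔ F ⊆ boundary G W ∧ joined F W ⊆ S := by
  classical
  constructor
  · intro h
    constructor
    · intro e he
      have := h he
      simp only [cut, boundary, mem_filter] at this ⊢
      obtain ⟨h1, a, b, rfl, ha, hb⟩ := this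
      exact ⟨h1, a, b, rfl, ha, fun hb' => Finset.disjoint_left.mp hWS hb' hb⟩
    · intro b hb
      simp only [joined, mem_filter, mem_univ, true_and] at hb
      obtain ⟨hbW, a, ha, hab⟩ := hb
      have := h hab
      simp only [cut, mem_filter] at this
      obtain ⟨_, a', b', hab', ha', hb'⟩ := this
      rw [Sym2.eq_iff] at hab'
      rcases hab' with ⟨rfl, rfl⟩ | ⟨rfl, rfl⟩
      · exact hb'
      · exact absurd ha' hbW
  · rintro ⟨h1, h2⟩ e he
    have := h1 he
    simp only [cut, boundary, mem_filter] at this ⊢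
    obtain ⟨h3, a, b, rfl, ha, hb⟩ := this
    refine ⟨h3, a, b, rfl, ha, h2 ?_⟩
    simp only [joined, mem_filter, mem_univ, true_and]
    exact ⟨hb, a, ha, he⟩

lemma card_cut (G : SimpleGraph V) (W S : Finset V) (hWS : Disjoint W S) [DecidableRel G.Adj] :
    (cut G W S).card = ((W ×ˢ S).filter (fun p : V × V => G.Adj p.1 p.2)).card := by
  classical
  symm
  refine Finset.card_bij (fun p _ => s(p.1, p.2)) ?_ ?_ ?_
  · rintro ⟨a, b⟩ h
    simp only [mem_filter, mem_product] at h
    simp only [cut, mem_filter, SimpleGraph.mem_edgeFinset, SimpleGraph.mem_edgeSet]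
    exact ⟨h.2, a, b, rfl, h.1.1, h.1.2⟩
  · rintro ⟨a, b⟩ h ⟨a', b'⟩ h' heq
    simp only [mem_filter, mem_product] at h h'
    simp only [Sym2.eq_iff] at heq
    rcases heq with ⟨rfl, rfl⟩ | ⟨rfl, rfl⟩
    · rfl
    · exact absurd h'.1.2 (fun h'' => Finset.disjoint_left.mp hWS h.1.1 h'')
  · intro e he
    simp only [cut, mem_filter, SimpleGraph.mem_edgeFinset] at he
    obtain ⟨h1, a, b, rfl, ha, hb⟩ := he
    refine ⟨(a, b), ?_, rfl⟩
    simp only [mem_filter, mem_product]
    exact ⟨⟨ha, hb⟩, h1⟩

lemma card_cut_compl (G : SimpleGraph V) (W S : Finset V) (hWS : Disjoint W S) :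
    (cut G W S).card + (cut Gᶜ W S).card = W.card * S.card := by
  classical
  rw [card_cut G W S hWS, card_cut Gᶜ W S hWS, ← Finset.card_product,
    ← Finset.card_filter_add_card_filter_not (s := W ×ˢ S) (fun p : V × V => G.Adj p.1 p.2)]
  congr 2
  apply Finset.filter_congr
  rintro ⟨a, b⟩ h
  simp only [mem_product] at h
  simp only [SimpleGraph.compl_adj]
  constructor
  · exact fun h' => h'.2
  · refine fun h' => ⟨?_, h'⟩
    rintro rfl
    exact Finset.disjoint_left.mp hWS h.1 h.2

/-- The inner sum, for a fixed `W`. -/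
lemma inner_sum {R : Type*} [CommRing R] (G : SimpleGraph V) (W : Finset V) [DecidableEq V]
    (y z : R) :
    ∑ F ∈ (boundary G W).powerset, y ^ (joined F W).card * z ^ F.card =
      ∑ S ∈ (Wᶜ).powerset, y ^ S.card * (1 - y) ^ ((Wᶜ).card - S.card) *
        (1 + z) ^ (cut G W S).card := by
  classical
  have h1 : ∀ S ∈ (Wᶜ).powerset, y ^ S.card * (1 - y) ^ ((Wᶜ).card - S.card) *
        (1 + z) ^ (cut G W S).card =
      ∑ F ∈ (boundary G W).powerset, if joined F W ⊆ S then
        y ^ S.card * (1 - y) ^ ((Wᶜ).card - S.card) * z ^ F.card else 0 := by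
    intro S hS
    rw [mem_powerset] at hS
    have hWS : Disjoint W S := by
      rw [Finset.disjoint_left]
      intro a ha haS
      exact (Finset.mem_compl.mp (hS haS)) ha
    rw [← Finset.sum_filter]
    have h2 : (boundary G W).powerset.filter (fun F => joined F W ⊆ S) =
        (cut G W S).powerset := by
      ext F
      simp only [mem_filter, mem_powerset]
      exact (subset_cut_iff G W S hWS F).symm
    rw [h2, ← Finset.mul_sum]
    congr 1
    have := Finset.sum_pow_mul_eq_add_pow z (1 : R) (cut G W S)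
    simp only [one_pow, mul_one] at this
    rw [this, add_comm]
  rw [Finset.sum_congr rfl h1, Finset.sum_comm]
  refine Finset.sum_congr rfl fun F hF => ?_
  rw [← Finset.sum_filter, ← Finset.sum_mul]
  congr 1
  have hN : joined F W ⊆ Wᶜ := by
    intro b hb
    simp only [joined, mem_filter, mem_univ, true_and] at hb
    exact Finset.mem_compl.mpr hb.1
  have h3 : (Wᶜ).powerset.filter (fun S => joined F W ⊆ S) = Finset.Icc (joined F W) (Wᶜ) := by
    ext S
    simp only [mem_filter, mem_powerset, Finset.mem_Icc]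
    exact and_comm
  rw [h3, Finset.Icc_eq_image_powerset hN, Finset.sum_image]
  · have h4 : ∀ T ∈ (Wᶜ \ joined F W).powerset,
        y ^ (joined F W ∪ T).card * (1 - y) ^ ((Wᶜ).card - (joined F W ∪ T).card) =
        y ^ (joined F W).card * (y ^ T.card * (1 - y) ^ ((Wᶜ \ joined F W).card - T.card)) := by
      intro T hT
      rw [mem_powerset] at hT
      have hd : Disjoint (joined F W) T := by
        rw [Finset.disjoint_left]
        intro a ha haT
        exact (Finset.mem_sdiff.mp (hT haT)).2 ha
      rw [Finset.card_union_of_disjoint hd, Finset.card_sdiff_of_subset hN, pow_add,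
        Nat.sub_sub, mul_assoc]
    rw [Finset.sum_congr rfl h4, ← Finset.mul_sum, Finset.sum_pow_mul_eq_add_pow]
    simp
  · intro T hT T' hT' h
    simp only [coe_powerset, Set.mem_preimage, Set.mem_powerset_iff, coe_subset] at hT hT'
    have hd : ∀ T, T ⊆ Wᶜ \ joined F W → (joined F W ∪ T) \ joined F W = T := by
      intro T hT
      rw [Finset.union_sdiff_cancel_left]
      rw [Finset.disjoint_left]
      intro a ha haT
      exact (Finset.mem_sdiff.mp (hT haT)).2 ha
    rw [← hd T hT, ← hd T' hT']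
    simp only at h
    rw [h]

open Classical in
/-- The pairs of disjoint sets of vertices. -/
noncomputable def pairs (V : Type u) [Fintype V] : Finset (Finset V × Finset V) :=
  Finset.univ.filter (fun p => Disjoint p.1 p.2)

open Classical in
/-- number of disjoint pairs `(W,S)` with prescribed sizes and number of edges between -/
noncomputable def cnt (G : SimpleGraph V) (i j e : ℕ) : ℕ :=
  ((pairs V).filter (fun p => p.1.card = i ∧ p.2.card = j ∧ (cut G p.1 p.2).card = e)).card

lemma sum_pairs {R : Type*} [AddCommMonoid R] [DecidableEq V] (f : Finset V → Finset V → R) :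
    ∑ W : Finset V, ∑ S ∈ (Wᶜ).powerset, f W S = ∑ p ∈ pairs V, f p.1 p.2 := by
  classical
  rw [Finset.sum_sigma']
  refine Finset.sum_bij' (fun p _ => (p.1, p.2)) (fun p _ => ⟨p.1, p.2⟩) ?_ ?_ ?_ ?_ ?_
  · rintro ⟨W, S⟩ h
    simp only [mem_sigma, mem_univ, mem_powerset, true_and] at h
    simp only [pairs, mem_filter, mem_univ, true_and]
    rw [Finset.disjoint_left]
    intro a ha haS
    exact (Finset.mem_compl.mp (h haS)) ha
  · rintro ⟨W, S⟩ h
    simp only [pairs, mem_filter, mem_univ, true_and] at h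
    simp only [mem_sigma, mem_univ, mem_powerset, true_and]
    intro a ha
    exact Finset.mem_compl.mpr fun h' => Finset.disjoint_left.mp h h' ha
  · rintro ⟨W, S⟩ h
    rfl
  · rintro ⟨W, S⟩ h
    rfl
  · rintro ⟨W, S⟩ h
    rfl

lemma bip_eq (G : SimpleGraph V) :
    bipartitionPolynomial G = ∑ p ∈ pairs V, X 0 ^ p.1.card *
      (X 1 ^ p.2.card * (1 - X 1) ^ (Fintype.card V - p.1.card - p.2.card) *
        (1 + X 2) ^ (cut G p.1 p.2).card) := by
  classical
  rw [← sum_pairs (fun W S => (X 0 ^ W.card *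
      (X 1 ^ S.card * (1 - X 1) ^ (Fintype.card V - W.card - S.card) *
        (1 + X 2) ^ (cut G W S).card) : MvPolynomial (Fin 3) ℤ))]
  unfold bipartitionPolynomial
  refine Finset.sum_congr rfl fun W _ => ?_
  rw [inner_sum, Finset.mul_sum]
  refine Finset.sum_congr rfl fun S hS => ?_
  rw [Finset.card_compl]

/-- `bipartitionPolynomial` from the counts. -/
lemma bip_eq_cnt (G : SimpleGraph V) :
    bipartitionPolynomial G =
      ∑ t ∈ (Finset.range (Fintype.card V + 1)) ×ˢ ((Finset.range (Fintype.card V + 1)) ×ˢ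
        (Finset.range (Fintype.card V * Fintype.card V + 1))),
        (cnt G t.1 t.2.1 t.2.2 : MvPolynomial (Fin 3) ℤ) * (X 0 ^ t.1 *
      (X 1 ^ t.2.1 * (1 - X 1) ^ (Fintype.card V - t.1 - t.2.1) *
        (1 + X 2) ^ t.2.2)) := by
  classical
  rw [bip_eq]
  have hmap : ∀ p ∈ pairs V, (p.1.card, p.2.card, (cut G p.1 p.2).card) ∈
      (Finset.range (Fintype.card V + 1)) ×ˢ ((Finset.range (Fintype.card V + 1)) ×ˢ
        (Finset.range (Fintype.card V * Fintype.card V + 1))) := by
    intro p hp
    simp only [pairs, mem_filter, mem_univ, true_and] at hp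
    simp only [mem_product, mem_range]
    have h1 := card_cut_compl G p.1 p.2 hp
    have h2 := Finset.card_le_univ p.1
    have h3 := Finset.card_le_univ p.2
    have h4 := Nat.mul_le_mul h2 h3
    refine ⟨by omega, by omega, by omega⟩
  rw [← Finset.sum_fiberwise_of_maps_to hmap]
  refine Finset.sum_congr rfl fun t _ => ?_
  rw [cnt, ← nsmul_eq_mul, ← Finset.sum_const]
  have : (pairs V).filter (fun p => (p.1.card, p.2.card, (cut G p.1 p.2).card) = t) =
      (pairs V).filter (fun p => p.1.card = t.1 ∧ p.2.card = t.2.1 ∧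
        (cut G p.1 p.2).card = t.2.2) := by
    apply Finset.filter_congr
    intro p _
    obtain ⟨a, b, c⟩ := t
    simp only [Prod.mk.injEq]
  rw [this]
  refine Finset.sum_congr rfl fun p hp => ?_
  simp only [mem_filter] at hp
  rw [hp.2.1, hp.2.2.1, hp.2.2.2]

lemma cnt_compl (G : SimpleGraph V) (i j e : ℕ) (he : e ≤ i * j) :
    cnt Gᶜ i j (i * j - e) = cnt G i j e := by
  classical
  unfold cnt
  congr 1
  apply Finset.filter_congr
  intro p hp
  simp only [pairs, mem_filter, mem_univ, true_and] at hp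
  have h1 := card_cut_compl G p.1 p.2 hp
  constructor
  · rintro ⟨h2, h3, h4⟩
    rw [h2, h3] at h1
    exact ⟨h2, h3, by omega⟩
  · rintro ⟨h2, h3, h4⟩
    rw [h2, h3] at h1
    exact ⟨h2, h3, by omega⟩

lemma cnt_zero (G : SimpleGraph V) (i j e : ℕ) (he : i * j < e) :
    cnt G i j e = 0 := by
  classical
  unfold cnt
  rw [Finset.card_eq_zero, Finset.filter_eq_empty_iff]
  intro p hp
  simp only [pairs, mem_filter, mem_univ, true_and] at hp
  have h1 := card_cut_compl G p.1 p.2 hp
  rintro ⟨h2, h3, h4⟩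
  rw [h2, h3] at h1
  omega

/-- The counting polynomial. -/
noncomputable def cp (G : SimpleGraph V) : MvPolynomial (Fin 3) ℚ :=
  ∑ p ∈ pairs V, X 0 ^ p.1.card * X 1 ^ p.2.card * X 2 ^ (cut G p.1 p.2).card

/-- the exponent vector `(i,j,e)` -/
noncomputable def expo (i j e : ℕ) : Fin 3 →₀ ℕ :=
  Finsupp.single 0 i + Finsupp.single 1 j + Finsupp.single 2 e

lemma expo_inj (i j e i' j' e' : ℕ) : expo i j e = expo i' j' e' ↔ i = i' ∧ j = j' ∧ e = e' := by
  constructor
  · intro h
    have h0 := DFunLike.congr_fun h 0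
    have h1 := DFunLike.congr_fun h 1
    have h2 := DFunLike.congr_fun h 2
    simp [expo] at h0 h1 h2
    exact ⟨h0, h1, h2⟩
  · rintro ⟨rfl, rfl, rfl⟩
    rfl

lemma coeff_cp (G : SimpleGraph V) (i j e : ℕ) :
    coeff (expo i j e) (cp G) = (cnt G i j e : ℚ) := by
  classical
  have h : ∀ p : Finset V × Finset V,
      (X 0 ^ p.1.card * X 1 ^ p.2.card * X 2 ^ (cut G p.1 p.2).card : MvPolynomial (Fin 3) ℚ) =
      monomial (expo p.1.card p.2.card (cut G p.1 p.2).card) 1 := by
    intro p
    simp only [X_pow_eq_monomial, monomial_mul, expo, mul_one]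
  unfold cp
  simp_rw [h]
  rw [coeff_sum]
  simp_rw [coeff_monomial]
  rw [← Finset.sum_filter, Finset.sum_const, nsmul_eq_mul, mul_one, cnt]
  congr 2
  apply Finset.filter_congr
  intro p _
  rw [expo_inj]

lemma frac_aux (a b q : ℚ) (i j e m : ℕ) (hb : 1 + b ≠ 0) :
    (1 + b) ^ (i + j + m) * ((a / (1 + b)) ^ i * ((b / (1 + b)) ^ j * (1 - b / (1 + b)) ^ m *
      (1 + (q - 1)) ^ e)) = a ^ i * b ^ j * q ^ e := by
  have h2 : (1 : ℚ) - b / (1 + b) = 1 / (1 + b) := by
    field_simp
    ring
  have h3 : (1 : ℚ) + (q - 1) = q := by ring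
  rw [h2, h3, pow_add, pow_add, div_pow, div_pow, div_pow, one_pow]
  have hi : (1 + b) ^ i ≠ 0 := pow_ne_zero _ hb
  have hj : (1 + b) ^ j ≠ 0 := pow_ne_zero _ hb
  have hm : (1 + b) ^ m ≠ 0 := pow_ne_zero _ hb
  field_simp

lemma eval_bip (G : SimpleGraph V) (v : Fin 3 → ℚ) (hb : 1 + v 1 ≠ 0) :
    (1 + v 1) ^ Fintype.card V *
      aeval (fun i : Fin 3 => ![v 0 / (1 + v 1), v 1 / (1 + v 1), v 2 - 1] i)
        (bipartitionPolynomial G) = eval v (cp G) := by
  classical
  rw [bip_eq, cp, map_sum, map_sum, Finset.mul_sum]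
  refine Finset.sum_congr rfl fun p hp => ?_
  simp only [pairs, mem_filter, mem_univ, true_and] at hp
  have hc : p.1.card + p.2.card ≤ Fintype.card V := by
    rw [← Finset.card_union_of_disjoint hp]
    exact Finset.card_le_univ _
  obtain ⟨m, hm⟩ := Nat.exists_eq_add_of_le hc
  have h1 : Fintype.card V - p.1.card - p.2.card = m := by omega
  rw [h1, hm]
  simp only [map_mul, map_pow, map_sub, map_add, map_one, aeval_X, eval_X]
  exact frac_aux (v 0) (v 1) (v 2) _ _ _ m hb

lemma eval_two_pow (G : SimpleGraph V) :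
    eval (fun i : Fin 3 => ![(1 : ℤ), 0, 0] i) (bipartitionPolynomial G) =
      2 ^ Fintype.card V := by
  classical
  unfold bipartitionPolynomial
  have h1 : ∀ W : Finset V, eval (fun i : Fin 3 => ![(1 : ℤ), 0, 0] i) (X 0 ^ W.card *
      ∑ F ∈ (boundary G W).powerset, X 1 ^ (joined F W).card * X 2 ^ F.card) = 1 := by
    intro W
    rw [map_mul, map_sum, Finset.sum_eq_single (∅ : Finset (Sym2 V))]
    · have : joined (∅ : Finset (Sym2 V)) W = ∅ := by
        ext b
        simp [joined]
      simp [this]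
    · intro F _ hF
      have : F.card ≠ 0 := by
        rw [Ne, Finset.card_eq_zero]
        exact hF
      simp [this]
    · intro h
      exact absurd (Finset.empty_mem_powerset _) h
  rw [map_sum, Finset.sum_congr rfl fun W _ => h1 W]
  simp

lemma card_eq (G : SimpleGraph V) {V' : Type v} [Fintype V'] (H : SimpleGraph V')
    (h : bipartitionPolynomial G = bipartitionPolynomial H) :
    Fintype.card V = Fintype.card V' := by
  have h1 := eval_two_pow G
  have h2 := eval_two_pow H
  rw [h, h2] at h1
  have h3 : (2 : ℕ) ^ Fintype.card V' = 2 ^ Fintype.card V := by exact_mod_cast h1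
  exact (Nat.pow_right_injective (le_refl 2) h3).symm

lemma cp_eq (G : SimpleGraph V) {V' : Type v} [Fintype V'] (H : SimpleGraph V')
    (h : bipartitionPolynomial G = bipartitionPolynomial H) : cp G = cp H := by
  refine funext_set (fun _ => Set.Ici (0 : ℚ)) (fun _ => Set.Ici_infinite 0) fun v hv => ?_
  have hv1 : (0 : ℚ) ≤ v 1 := hv 1 (Set.mem_univ _)
  have hb : 1 + v 1 ≠ 0 := by positivity
  rw [← eval_bip G v hb, ← eval_bip H v hb, h, card_eq G H h]

lemma cnt_eq (G : SimpleGraph V) {V' : Type v} [Fintype V'] (H : SimpleGraph V')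
    (h : bipartitionPolynomial G = bipartitionPolynomial H) (i j e : ℕ) :
    cnt G i j e = cnt H i j e := by
  have h1 := coeff_cp G i j e
  rw [cp_eq G H h, coeff_cp H i j e] at h1
  exact_mod_cast h1.symm

end Proof

/-- **The bipartition polynomial of a graph is determined by that of its complement.** -/
theorem result {V : Type u} {V' : Type v} [Fintype V] [Fintype V']
    (G : SimpleGraph V) (H : SimpleGraph V')
    (h : bipartitionPolynomial Gᶜ = bipartitionPolynomial Hᶜ) :
    bipartitionPolynomial G = bipartitionPolynomial H := by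
  have hcard := card_eq _ _ h
  have hcnt : ∀ i j e : ℕ, cnt G i j e = cnt H i j e := by
    intro i j e
    by_cases he : e ≤ i * j
    · rw [← cnt_compl G i j e he, ← cnt_compl H i j e he, cnt_eq _ _ h]
    · rw [cnt_zero G i j e (by omega), cnt_zero H i j e (by omega)]
  rw [bip_eq_cnt, bip_eq_cnt, hcard]
  simp_rw [hcnt]

end Pool.Agent.Results.MP_633bfc_co.Complement
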